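import Mathlib
import Pool.Agent.R272.LpX.Defs
import Pool.Agent.R272.LpX.Main

set_option autoImplicit false

namespace Pool.Agent.Results.MP_8476ae_an.LpTargetDimension

open Pool.Agent.R272.LpX

universe u

/-- Disproof of Q1. First part: for every distortion `D` in `[1,2)` and every sufficiently large
`p` there are `n`-point metric spaces, for all large `n`, whose embedding with distortion `D` into
`ℓ_p(X)` forces `dim X ≥ c n / log n`. Second part: the negated form of Q1, for all large `n`. -/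
theorem result :
    (∀ D : ℝ, 1 ≤ D → D < 2 → ∃ p₀ : ℝ, 1 ≤ p₀ ∧ ∀ p : ℝ, p₀ ≤ p →
      ∃ c : ℝ, 0 < c ∧ ∃ n₀ : ℕ, ∀ n : ℕ, n₀ ≤ n →
      ∃ (M : Type) (_ : Fintype M) (_ : MetricSpace M), Fintype.card M = n ∧
        ∀ (X : Type u) [NormedAddCommGroup X] [NormedSpace ℝ X] [FiniteDimensional ℝ X],
          EmbedsLp p D M X → c * n / Real.log n ≤ Module.finrank ℝ X) ∧
    (∀ C : ℝ, 1 ≤ C → ∃ p D : ℝ, 1 ≤ p ∧ 1 ≤ D ∧ ∃ n₀ : ℕ, ∀ n : ℕ, n₀ ≤ n →
      ∃ (M : Type) (_ : Fintype M) (_ : MetricSpace M), Fintype.card M = n ∧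
        ∀ (X : Type u) [NormedAddCommGroup X] [NormedSpace ℝ X] [FiniteDimensional ℝ X],
          (Module.finrank ℝ X : ℝ) ≤ (n : ℝ) ^ (C / (p * D)) → ¬ EmbedsLp p D M X) :=
  ⟨lower.{u}, negated.{u}⟩

end Pool.Agent.Results.MP_8476ae_an.LpTargetDimension
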